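import Pool.Agent.W547.UB.Tate

/-!
# Tate classes on abelian varieties of CM type, in independent blocks

Let `A` be an abelian variety over the algebraic closure `k` of a field finitely generated over `ℚ`,
isogenous to a product `X` of any number of abelian varieties `A i` with complex multiplication by CM
fields `E i`, with CM types `Φ i`. It has a model over a number field `k₁`.
The factors are divided into blocks (the block of the factor `A i` is `b i`), such that for each block
there is an automorphism of the field of complex numbers that acts as the complex conjugation on all
embeddings of the CM fields in this block and trivially on all embeddings of the CM fields in the
other blocks (the intersection of the Galois closure of the fields of the block with the compositum of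
the Galois closures of the other fields is totally real; for one block this is no condition). Each
block is of one of the following kinds:

* its factors have dimension at most three, and any two of them whose CM fields have the same Galois
  closure over `ℚ` have isomorphic CM types, unless these CM fields are Galois over `ℚ`;
* its factors are factors (up to isogeny) of one abelian variety of CM type of dimension at most
  five, each with any multiplicity;
* its factors have the same CM type, with a CM field of degree at most fourteen;
* its factors are factors (up to isogeny) of one nondegenerate abelian variety of CM type, of
  arbitrary dimension, each with any multiplicity.

For example `X` may be any power of any abelian variety of CM type of dimension at most five, or any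
power of a simple abelian variety of CM type of dimension at most seven, or a product of such powers
for which the Galois closures of the CM fields are linearly disjoint. The conditions hold for all
powers of `X` if they hold for `X`.

Let `V = V_ℓ(A) = ℚ_ℓ ⊗ H_1(X, ℚ)` be the rational Tate module, with the action `ρ` of the Galois
group and the cyclotomic character `χ`, and let `γ` be the Frobenius element of one place above a
prime number `p ≠ ℓ` that splits completely in the fields `E i`. It acts by the multiplication by
`π ∈ ∏ E i`, with absolute values given by the theorem of Shimura and Taniyama.

Then all Tate classes on `A` (the classes in `H^{2m}(A, ℚ_ℓ(m))` fixed by a subgroup of finite index
of the Galois group; in particular the classes fixed by the Galois group itself) are linear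
combinations, with coefficients in `ℚ_ℓ`, of classes in the ring generated by the classes of divisors
on `X` and by the pull-backs, along homomorphisms `X → Y`, of the Weil classes of imaginary quadratic
fields on abelian fourfolds and sixfolds `Y` of CM type and of split Weil type.

The Weil classes on abelian fourfolds of Weil type and on abelian sixfolds of split Weil type are
algebraic by theorems of Markman. With these theorems all Tate classes on all these abelian
varieties and all their powers are algebraic, in all degrees; there are exotic ones among them.

The proof: the Tate classes are combinations of Hodge classes on `X`, by the formula of Shimura and
Taniyama. Over a Galois CM field `L` the Hodge classes correspond to relations between the functions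
with values `1` and `-1` on the Galois group `G` belonging to half systems, the translates of the CM
types. The automorphisms in the condition on the blocks separate a relation into relations for the
single blocks. In a block of factors of a variety of dimension at most five, or of one type of
degree at most fourteen, each relation is a sum of relations between opposite half systems and of
relations of length four and six that come from imaginary quadratic fields; for small factors
one has averages over normal subgroups that are multiples of quadratic characters.
-/

namespace Pool.Agent.Results.MP_640417_ag.CMIndependentBlocks

open Pool.Agent.W547.KB Pool.Agent.W547.LD Pool.Agent.W530.NF Pool.Agent.W547.LN
open Pool.Agent.W547.UB

/-- `X` a product of abelian varieties of CM type in independent blocks, `V` the rational Tate module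
with the action `ρ` of the Galois group `G`, `γ ∈ G` one Frobenius element: all Tate classes `f`
on `X` are generated. -/
theorem result (X : CMAV) {J : Type} (b : X.I → J) (hX : IndependentBlocks X b)
    {K V G : Type} [Field K]
    [CharZero K] [AddCommGroup V] [Module K V] [Group G] (C : Comparison X K V)
    (ρ : Representation K G V) (χ : G →* K) (w : AbsoluteValue ℂ ℝ) (q : ℕ) (π : X.H1)
    (γ : G) (h : IsFrobeniusAt X C ρ χ w q π γ) {m : ℕ}
    (f : V [⋀^Fin (2 * m)]→ₗ[K] K) (hf : IsTateClass ρ χ f) : IsGenerated C f :=
  Pool.Agent.W547.UB.tate_numberField X b hX C ρ χ w q π γ h f hf

end Pool.Agent.Results.MP_640417_ag.CMIndependentBlocks
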