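import Pool.Agent.W547.OC.Tate

/-!
# Tate classes on abelian varieties of CM type: one class of codimension two for each CM type

Let `L` be a Galois CM field, `[L : ℚ] = 2 g`, and `B` an abelian variety of CM type whose field is
contained in `L` (for instance an elliptic curve whose field is an imaginary quadratic subfield of
`L`). Let `Ψ` be the CM type of `L` induced from `B`. For a CM type `Φ` of `L` and `ρ ∈ Φ`, `ρ ∉ Ψ`,
let `w(Φ, ρ)` be the class `Tr_{L/ℚ} (x₀ ∧ x₁ ∧ x₂ ∧ t)` of codimension two on
`A₀ × A₁ × A₂ × B`, where `A i` has CM type `(L, Φ i)`, `Φ 0 = Φ`, `Φ 0 ∩ Φ 1 = {ρ}`, and `Φ 2` meets
`Ψ` exactly in the conjugate of `ρ`.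

Choose, for every CM type `Φ` of `L` which differs from `Ψ` in `n` places, `2 ≤ n ≤ (g + 1) / 2`, one
`ρ = ρ(Φ)`, and consider the smallest system of rational classes on (complex) abelian varieties of CM
type which contains the classes of degree zero, the Hodge classes of degree two and the classes
`w(Φ, ρ(Φ))` and is closed under linear combinations, cup products, pull-backs and push-forwards
along projections.

Then for every abelian variety with complex multiplication (any product of any length) over a field
finitely generated over `ℚ`,
with CM fields contained in `L`, for every prime number `ℓ` and in all degrees, all Tate classes are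
linear combinations, with coefficients in `ℚ_ℓ`, of classes in this system. Here `V = V_ℓ = ℚ_ℓ ⊗
H_1(X, ℚ)` is the rational Tate module, with the action `ρ` of the Galois group and the cyclotomic
character `χ`, and `γ` is a Frobenius element over a place above a prime number `p ≠ ℓ` that splits
completely in the fields of `X`; it acts by the multiplication by `π ∈ ∏ E i`, with absolute values
given by the theorem of Shimura and Taniyama.

So all Tate classes on these infinitely many abelian varieties, for all `ℓ`, all powers and all
codimensions, are generated by divisors and finitely many explicit complex classes of codimension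
two, which do not depend on `ℓ`, one for each CM type `Φ` in the lower half of the types. Every
abelian variety of CM type is of this kind for some `L`.

The proof: the Tate classes are combinations of Hodge classes on `X`, by the formula of Shimura and
Taniyama. Over `L` the Hodge classes are spanned by monomials, that is by balanced multisets of CM
types of `L`. One class `w(Φ, ρ)` and its translates by multiplications span all monomials with the
types `Φ, Φ₁, Φ₂, Ψ`; Galois conjugation gives the complementary multisets, and pairs of
complementary types can be removed by push-forward. From one `ρ` for each `Φ` at distance
`≤ (g + 1) / 2` one gets the comparison of `Φ` with `Ψ` by induction on the distance; two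
complementary types in the middle give the comparison of `Ψ` with its complement, and so the
comparison of all types with `Ψ`, and all exchanges of one pair of embeddings between any two types;
these generate all balanced multisets.
-/

namespace Pool.Agent.Results.MP_640417_ag.ClassPerCMType

open NumberField Pool.Agent.W547.KB Pool.Agent.W547.OC Pool.Agent.W547.LN Pool.Agent.W530.NF
open Pool.Agent.H204R3.CM

/-- `B` any CM type whose field is embedded by `ι` into the Galois CM field `L`, `X` any abelian
variety of CM type with fields embedded in `L`, `V` its rational Tate module with the action `ρ` of
the Galois group `G`, `γ ∈ G` one Frobenius element: all Tate classes `f` are combinations of classes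
generated by one special class for each CM type. -/
theorem result (B : CMPair) (L : Type) [Field L] [NumberField L] [IsCMField L]
    [IsGalois ℚ L] (ι : B.E →+* L) (X : CMAV) (hX : SplitBy L X) {K V G : Type} [Field K]
    [CharZero K] [AddCommGroup V] [Module K V] [Group G] (C : Comparison X K V)
    (ρ : Representation K G V) (χ : G →* K) (w : AbsoluteValue ℂ ℝ) (q : ℕ) (π : X.H1)
    (γ : G) (h : IsFrobeniusAt X C ρ χ w q π γ) {m : ℕ}
    (f : V [⋀^Fin (2 * m)]→ₗ[K] K) (hf : IsTateClass ρ χ f) : IsCombination B L ι C f :=
  tate_generated B L ι X hX C ρ χ w q π γ h f hf

end Pool.Agent.Results.MP_640417_ag.ClassPerCMType
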