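import Mathlib
import Pool.Agent.W437.OR.Main
import Pool.Agent.W544.FF.Final0

/-!
# The Tate conjecture for products of surfaces with an arbitrary variety

Let `F` be a field with an embedding into the complex numbers, for instance an algebraic closure of
the field of `ℓ`-adic numbers, `Γ` a group, for instance the Galois group of a finitely generated
field, and `χ` a character of `Γ`, for instance the cyclotomic character. Let `M` be any
finite-dimensional representation of `Γ` over `F`, for instance the cohomology of an arbitrary
smooth projective variety `Y`; it is not assumed to be semisimple. Let `V i` be finitely many
orthogonal representations of `Γ` of even weights whose images are big, for instance the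
transcendental parts of the second cohomology groups of K3 surfaces `X i` without extra
endomorphisms. Assume that each `V i` is independent of `M` and of the previous `V j` at one
element of `Γ`: an element of the inertia group of a place where `Y` and the previous `X j`, but not
`X i`, have potentially good reduction, or a Frobenius element of a place of good reduction which
has an eigenvalue on `V i` that is multiplicatively independent of its eigenvalues on `M` and on the
previous `V j`. Let `A` be a system of tensors which is closed under products and permutations, for
instance the classes of algebraic cycles. If `A` contains the Tate classes of the tensor powers of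
`M`, the symmetric tensors of the `V i`, and the determinants of the `V i` with `i` in a set `D`,
then it contains all Tate classes of the tensor powers of `M ⊕ ⨁ V i` in whose components the
`V i` with `i` outside `D` occur less than `dim V i` times. (All definitions are in the file
`Pool/Agent/W437/OR/Defs.lean`.)
-/

namespace Pool.Agent.Results.MP_640417_ag.OrthogonalFactors

open Pool.Agent.W437.OR

/-- Let `M` be any representation of `Γ`, and let `V i` be orthogonal representations of even
weights with big images, each of which is independent of `M` and of the previous ones at one
element of `Γ`. Then every system `A` with the formal properties `IsSystem` contains all Tate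
classes of the tensor powers of `M ⊕ ⨁ V i` in whose components the `V i` with `i` outside `D`
occur less than `N i` times. -/
theorem result {F : Type} [Field F] (e : F →+* ℂ) {Γ : Type} [Group Γ] {χ : Γ →* Fˣ}
    {ι : Type} [Fintype ι] [LinearOrder ι] {k : ι → ℤ} {N : ι → ℕ} {l : ℕ}
    (M : Γ →* Matrix (Fin l) (Fin l) F) (V : ∀ i, OrRep χ (k i) (N i))
    (hbig : ∀ i, (V i).IsBig) (hindep : ∀ i, IsIndep M V i) (D : Set ι)
    (A : ∀ κ : Type, Submodule F ((κ → Bas l N) → F)) (hA : IsSystem M V D A) {κ : Type}
    [Fintype κ] [DecidableEq κ] (c : (κ → Bas l N) → F) (hc : IsTateClass M V c)
    (hfew : IsFew D c) : c ∈ A κ := by
  have _ : CharZero F := e.charZero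
  exact main Pool.Agent.W544.FF.hdkF Pool.Agent.W839.FF.orb e hbig hindep hA c hc hfew

end Pool.Agent.Results.MP_640417_ag.OrthogonalFactors
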