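import Mathlib
import Pool.Agent.H204R3.GP.Defs
import Pool.Agent.W522.T.C3
import Pool.Agent.W522.T.Defs

/-!
# The Tate conjecture for all powers of abelian varieties with transvections or reflections

Let `A` be an abelian variety over a finitely generated field of characteristic zero, `V` its
rational `ℓ`-adic Tate module with the action `ρ` of the Galois group `Γ`, `χ` the cyclotomic
character and `ω` the Weil pairing of a polarization.  Let `Ω` be an algebraic closure of `ℚ_ℓ`.

The *strongly irreducible* subspaces `U` of `Ω ⊗ V` (predicate `SI`) are the minimal nonzero
subspaces that are stable under a subgroup of finite index of `Γ`. For example, if `A` is simple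
and the centre of `End(A) ⊗ ℚ` is the field `F`, their isomorphism classes are indexed by the
embeddings of `F` into `Ω`.

The theorem: suppose that

* (elements) for every strongly irreducible `U` of dimension at least two one of the following
  holds:
  - some `γ` of the Galois group with `(γ - 1) ^ 2 = 0` acts on `U` as a transvection (for example
    a generator of an inertia group at a place of bad semistable reduction);
  - some `γ` (for example a Frobenius element) which stabilises `U` has a simple eigenvalue `x₀` on
    `U`, and some homomorphism `f` from the multiplicative group to the additive group of `Ω` is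
    constant on all other eigenvalues of `γ` on `U`, but has another value on `x₀` (if `U` has
    dimension two, this means that the quotient of the eigenvalues is not a root of unity; for
    unitary `U` of signature `(n - 1, 1)` the `p`-adic valuation is such an `f` for the Frobenius
    elements at the `μ`-ordinary places of degree one);
  - `U` is self-dual with an alternating pairing and some `γ` which stabilises `U` has two simple
    eigenvalues `x₁`, `x₂` on `U` where such an `f` has the values `c + δ` and `c - δ`, and the
    value `c` on all other eigenvalues (with the `p`-adic valuation: the reduction is of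
    K3 type; in general: one eigenvalue `x₁` of a Frobenius element is multiplicatively independent
    of all other eigenvalues except its partner `q / x₁`);
* the one-dimensional `U` (which come from the factors of CM type) are not self-dual;
* (twists) if `U` has dimension at least two and is not self-dual, then every twist of `U` by a
  character that occurs in `Ω ⊗ V` is potentially isomorphic to `U`, or (if `U` has dimension two)
  dual to `U`;
* (determinants) the characters `det(U i) ^ 2 / χ ^ (dim (U i))` of the strongly irreducible
  subspaces `U i` which are pairwise neither isomorphic nor dual, and not self-dual, are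
  multiplicatively independent modulo characters of finite order.

Then for all `n` all Tate classes in the cohomology of `A ^ n` are linear combinations of wedge
products of Tate classes of degree two, hence algebraic by the theorem of Faltings: the Tate
conjecture holds for all powers of `A`.  If all `U` are self-dual (`A` is a product of abelian
varieties without factors of type III, IV) the last two conditions are empty.
-/

namespace Pool.Agent.Results.MP_640417_ag.Reflections

open Module TensorProduct Pool.Agent.H204R3.GP Pool.Agent.H204R3.SP Pool.Agent.W522.U
open Pool.Agent.W522.T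

theorem result (ℓ : ℕ) [Fact ℓ.Prime]
    {V : Type} [AddCommGroup V] [Module ℚ_[ℓ] V] [FiniteDimensional ℚ_[ℓ] V]
    {Γ : Type} [Group Γ] (ρ : Representation ℚ_[ℓ] Γ V) (χ : Γ →* ℚ_[ℓ])
    (ω : V →ₗ[ℚ_[ℓ]] V →ₗ[ℚ_[ℓ]] ℚ_[ℓ]) (halt : ∀ v, ω v v = 0)
    (hnondeg : ∀ u, (∀ v, ω v u = 0) → u = 0)
    (hω : ∀ s u v, ω (ρ s u) (ρ s v) = χ s * ω u v)
    (hss : FiniteIndexSemisimple ρ)
    (Ω : Type) [Field Ω] [Algebra ℚ_[ℓ] Ω] [IsAlgClosure ℚ_[ℓ] Ω]
    (R : Representation Ω Γ (Ω ⊗[ℚ_[ℓ]] V)) (hR : ∀ s, R s = (ρ s).baseChange Ω)
    (χ' : Γ →* Ω) (hχ' : ∀ s, χ' s = algebraMap ℚ_[ℓ] Ω (χ s))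
    (hrefl : HasReflections R χ') (hone : LinesNotSelfDual R χ') (htwist : TwistFree2 R χ')
    (hdet : DetIndependent R χ') :
    TateGeneratedInDegreeTwo ρ χ := by
  have _ : IsAlgClosed Ω := IsAlgClosure.isAlgClosed ℚ_[ℓ]
  have _ : Algebra.IsAlgebraic ℚ_[ℓ] Ω := IsAlgClosure.isAlgebraic
  have _ : CharZero Ω := charZero_of_injective_algebraMap (algebraMap ℚ_[ℓ] Ω).injective
  have hR' : R = bcr ρ Ω := by
    ext1 s
    exact hR s
  have hχ'' : χ' = bcc χ Ω := by
    ext1 s
    exact hχ' s
  subst hR' hχ''
  refine generated_of_ext ρ χ Ω fun m φ hφ => ?_
  exact Pool.Agent.W522.T.main_X (bcb Ω ω)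
    (bcb_nondeg_left ω hnondeg (left_nondeg ω halt hnondeg))
    (fun g u v => bcb_inv ρ χ ω hω g u v) hrefl hone htwist hdet (hasProj_bcr ρ Ω hss) φ hφ

end Pool.Agent.Results.MP_640417_ag.Reflections
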